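import Pool.Agent.Lib.MP_68fe73_pr.Main

/-!
# The integrated forward equation for the symmetric nearest neighbour zero-range process

For every nondecreasing rate function `g` with `g 0 = 0` and every initial configuration of finite
upper density, the zero-range process driven by marked Poisson processes satisfies the integrated
forward equation.
-/

open MeasureTheory Filter Topology
open Pool.Agent.Lib.MP_68fe73_pr

namespace Pool.Agent.Results.MP_68fe73_pr.ForwardEquation

theorem result (g : ℕ → ℝ) (hg : g 0 = 0) (hmono : Monotone g) {Ω : Type*} [MeasurableSpace Ω]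
    (P : Measure Ω) [IsProbabilityMeasure P] (F : ℝ → MeasurableSpace Ω) (Γ : Ω → Set Atom)
    (hΓ : IsMarkedPoisson P F Γ) (η₀ : ℤ → ℕ) (hη₀ : η₀ ∈ Y) (η : ℝ → Ω → ℤ → ℕ)
    (hη : IsZeroRangeProcess g P F Γ η₀ η) : IntegratedForwardEquation g P η₀ η :=
  integratedForwardEquation hg hmono hΓ hη₀ hη

end Pool.Agent.Results.MP_68fe73_pr.ForwardEquation
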